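import Pool.Agent.V8H44.ML.Tot
import Pool.Agent.V8H44.ML.Walk
import Pool.Agent.V8H44.ML.Tree

/-!
# MP_00d8cd_co, Q1: every nice connected graph with `m` edges has an irregularising walk of
length at most `3m`
-/

namespace Pool.Agent.Results.MP_00d8cd_co.ThreeM

open SimpleGraph Pool.Agent.Helper6W Pool.Agent.V8H44.ML

/-- A connected graph which is not isomorphic to `K₂` does not have two vertices. -/
lemma card_ne_two {V : Type} [Fintype V] (G : SimpleGraph V) (hc : G.Connected)
    (hn : ¬ Nonempty (G ≃g (⊤ : SimpleGraph (Fin 2)))) : Fintype.card V ≠ 2 := by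
  intro h2
  apply hn
  have e : V ≃ Fin 2 := Fintype.equivFinOfCardEq h2
  refine ⟨⟨e, ?_⟩⟩
  intro a b
  rw [top_adj]
  constructor
  · intro hab
    have hab' : a ≠ b := fun h => hab (congrArg e h)
    obtain ⟨p⟩ := hc.preconnected a b
    cases p with
    | nil => exact absurd rfl hab'
    | @cons _ c _ h p =>
      have hcb : c = b := by
        have h3 : e c ≠ e a := fun h' => h.ne (e.injective h').symm
        have h4 : e b ≠ e a := fun h' => hab' (e.injective h').symm
        apply e.injective
        have h5 := (e a).isLt
        have h6 := (e b).isLt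
        have h7 := (e c).isLt
        rw [Ne, Fin.ext_iff] at h3 h4
        rw [Fin.ext_iff]
        omega
      rw [← hcb]
      exact h
  · intro h hab
    exact h.ne (e.injective hab)

/-- Every connected graph `G` which is not isomorphic to `K₂` has, for every vertex `r`, an
irregularising closed walk at `r` of length at most `3m`, where `m` is the number of edges. -/
theorem result : ∀ (V : Type) [Fintype V] [DecidableEq V] (G : SimpleGraph V)
    [DecidableRel G.Adj], G.Connected → ¬ Nonempty (G ≃g (⊤ : SimpleGraph (Fin 2))) →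
      ∀ r : V, ∃ w : G.Walk r r, Irregularising G w ∧ w.length ≤ 3 * G.edgeFinset.card := by
  intro V _ _ G _ hc hn r
  have hcard := card_ne_two G hc hn
  by_cases h1 : Fintype.card V ≤ 1
  · refine ⟨Walk.nil, ?_, by simp⟩
    intro u v huv
    have : Subsingleton V := Fintype.card_le_one_iff_subsingleton.mp h1
    exact absurd (Subsingleton.elim u v) huv.ne
  · have h3 : 3 ≤ Fintype.card V := by omega
    obtain ⟨par, dep, ht, ho⟩ := stmTree V G hc h3 r
    obtain ⟨s, hs1, hs2, hs3⟩ := exists_values G r par dep ht ho h3
    obtain ⟨w, hw1, hw2⟩ := stmWalk V G r par dep s ht hs1 hs2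
    exact ⟨w, hw1, by rw [hw2]; exact hs3⟩

end Pool.Agent.Results.MP_00d8cd_co.ThreeM
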